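import Pool.Agent.Run7.h955.I

/-!
# Every normal subgroup of the extended mapping class group is some `K_Γ`

For every `g ≥ 2` every normal subgroup `N` of `Out(π)`, `π` the fundamental group of the closed
orientable surface of genus `g`, is equal to the kernel of `Out(π) → Out(π/Γ)` for a suitable
characteristic subgroup `Γ` of `π`.
-/

set_option autoImplicit false

open commutatorElement

namespace Pool.Agent.Results.MP_e058c8_al.NormalSubgroupsAreKernels

/-- The surface relator, the product of the commutators `[a_i, b_i]` for `i = 0, ..., g - 1` in this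
order, where `(i, false)` is the letter `a_i` and `(i, true)` is the letter `b_i`. -/
def surfaceRelator (g : ℕ) : FreeGroup (Fin g × Bool) :=
  (List.ofFn fun i : Fin g => ⁅FreeGroup.of (i, false), FreeGroup.of (i, true)⁆).prod

/-- The fundamental group of the closed orientable surface of genus `g`, by its standard
presentation. -/
abbrev SurfaceGroup (g : ℕ) : Type :=
  PresentedGroup ({surfaceRelator g} : Set (FreeGroup (Fin g × Bool)))

section

variable (G : Type) [Group G]

/-- The subgroup of inner automorphisms of `G`. -/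
def Inn : Subgroup (MulAut G) := (MulAut.conj : G →* MulAut G).range

theorem conj_map (f : MulAut G) (y : G) : f * MulAut.conj y * f⁻¹ = MulAut.conj (f y) := by
  ext z
  simp [MulAut.mul_apply, MulAut.conj_apply]

instance normal_Inn : (Inn G).Normal := by
  refine ⟨?_⟩
  rintro _ ⟨y, rfl⟩ f
  exact ⟨f y, (conj_map G f y).symm⟩

/-- The outer automorphism group `Aut(G)/Inn(G)`. -/
abbrev Out : Type := MulAut G ⧸ Inn G

end

section

variable {G : Type} [Group G] (Γ : Subgroup G) [hΓ : Γ.Characteristic]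

/-- The homomorphism `Aut(G) → Aut(G/Γ)` for a characteristic subgroup `Γ`: an automorphism `f`
goes to the automorphism `x Γ ↦ f(x) Γ`. -/
def autQuot : MulAut G →* MulAut (G ⧸ Γ) where
  toFun f := QuotientGroup.congr Γ Γ f (Subgroup.characteristic_iff_map_eq.mp hΓ f)
  map_one' := by
    ext x
    induction x using QuotientGroup.induction_on with
    | H x => rfl
  map_mul' f f' := by
    ext x
    induction x using QuotientGroup.induction_on with
    | H x => rfl

theorem autQuot_mk (f : MulAut G) (x : G) : autQuot Γ f (x : G ⧸ Γ) = (f x : G) := rfl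

theorem autQuot_conj (y : G) : autQuot Γ (MulAut.conj y) = MulAut.conj (y : G ⧸ Γ) := by
  ext x
  induction x using QuotientGroup.induction_on with
  | H x => rfl

theorem autQuot_inn : Inn G ≤ (Inn (G ⧸ Γ)).comap (autQuot Γ) := by
  rintro _ ⟨y, rfl⟩
  exact ⟨(y : G ⧸ Γ), (autQuot_conj Γ y).symm⟩

/-- The natural homomorphism `Out(G) → Out(G/Γ)` for a characteristic subgroup `Γ`. -/
def outQuot : Out G →* Out (G ⧸ Γ) :=
  QuotientGroup.map (Inn G) (Inn (G ⧸ Γ)) (autQuot Γ) (autQuot_inn Γ)

theorem autQuot_eq_one_iff (f : MulAut G) : autQuot Γ f = 1 ↔ ∀ z, f z * z⁻¹ ∈ Γ := by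
  constructor
  · intro h z
    have h1 : autQuot Γ f (z : G ⧸ Γ) = z := by rw [h]; rfl
    rw [autQuot_mk, QuotientGroup.eq] at h1
    have hn : Γ.Normal := inferInstance
    have h2 := hn.conj_mem _ h1 (f z)
    have e : f z * ((f z)⁻¹ * z) * (f z)⁻¹ = (f z * z⁻¹)⁻¹ := by group
    rw [e] at h2
    exact (Subgroup.inv_mem_iff _).mp h2
  · intro h
    ext x
    induction x using QuotientGroup.induction_on with
    | H x =>
      rw [autQuot_mk, MulAut.one_apply, QuotientGroup.eq]
      have hn : Γ.Normal := inferInstance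
      have h2 := hn.conj_mem _ ((Subgroup.inv_mem_iff _).mpr (h x)) (f x)⁻¹
      have e : (f x)⁻¹ * (f x * x⁻¹)⁻¹ * (f x)⁻¹⁻¹ = (f x)⁻¹ * x := by group
      rw [e] at h2
      exact h2

theorem mem_ker_iff (f : MulAut G) : ((f : Out G) ∈ (outQuot Γ).ker) ↔
    ∃ y : G, autQuot Γ f = MulAut.conj (y : G ⧸ Γ) := by
  rw [MonoidHom.mem_ker]
  have h : outQuot Γ (f : Out G) = ((autQuot Γ f : MulAut (G ⧸ Γ)) : Out (G ⧸ Γ)) := rfl
  rw [h, QuotientGroup.eq_one_iff]
  constructor
  · rintro ⟨y, hy⟩
    induction y using QuotientGroup.induction_on with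
    | H y => exact ⟨y, hy.symm⟩
  · rintro ⟨y, hy⟩
    exact ⟨_, hy.symm⟩

end

theorem eq_ker {G : Type} [Group G] (N : Subgroup (Out G)) (M : Subgroup (MulAut G))
    (hM : M.Normal) (hMN : M ⊔ Inn G = N.comap (QuotientGroup.mk' (Inn G)))
    (hC : ∀ f : MulAut G, (∀ z, MulAut.conj (f z * z⁻¹) ∈ M) → f ∈ M) :
    ∃ (Γ : Subgroup G) (_ : Γ.Characteristic), N = (outQuot Γ).ker := by
  have hmem : ∀ f : MulAut G, (f : Out G) ∈ N ↔ f ∈ M ⊔ Inn G := by
    intro f
    rw [hMN]
    rfl
  have hchar : (M.comap (MulAut.conj : G →* MulAut G)).Characteristic := by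
    refine ⟨fun f => ?_⟩
    ext y
    change MulAut.conj ((f : MulAut G) y) ∈ M ↔ MulAut.conj y ∈ M
    rw [← conj_map G f y]
    constructor
    · intro h
      have h2 := hM.conj_mem _ h ((f : MulAut G)⁻¹)
      have e : ((f : MulAut G)⁻¹) * ((f : MulAut G) * MulAut.conj y * (f : MulAut G)⁻¹) *
          ((f : MulAut G)⁻¹)⁻¹ = MulAut.conj y := by group
      rw [e] at h2
      exact h2
    · intro h
      exact hM.conj_mem _ h f
  refine ⟨M.comap (MulAut.conj : G →* MulAut G), hchar, ?_⟩
  ext q
  induction q using QuotientGroup.induction_on with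
  | H f =>
    rw [mem_ker_iff, hmem]
    constructor
    · intro h
      obtain ⟨m, hm, c, hc, rfl⟩ := (Subgroup.mem_sup_of_normal_right).mp h
      obtain ⟨y, rfl⟩ := hc
      refine ⟨y, ?_⟩
      have h1 : autQuot (M.comap (MulAut.conj : G →* MulAut G)) m = 1 := by
        rw [autQuot_eq_one_iff]
        intro z
        rw [Subgroup.mem_comap, map_mul, map_inv, ← conj_map G m z]
        have e : m * MulAut.conj z * m⁻¹ * (MulAut.conj z)⁻¹ =
            m * (MulAut.conj z * m⁻¹ * (MulAut.conj z)⁻¹) := by group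
        rw [e]
        exact M.mul_mem hm (hM.conj_mem _ (M.inv_mem hm) _)
      rw [map_mul, h1, one_mul, autQuot_conj]
    · rintro ⟨y, hy⟩
      have h1 : autQuot (M.comap (MulAut.conj : G →* MulAut G)) (f * (MulAut.conj y)⁻¹) = 1 := by
        rw [map_mul, map_inv, hy, autQuot_conj, mul_inv_cancel]
      have h2 : f * (MulAut.conj y)⁻¹ ∈ M := by
        apply hC
        intro z
        exact (autQuot_eq_one_iff _ _).mp h1 z
      have e : f = f * (MulAut.conj y)⁻¹ * MulAut.conj y := by group
      rw [e]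
      exact (M ⊔ Inn G).mul_mem (Subgroup.mem_sup_left h2) (Subgroup.mem_sup_right ⟨y, rfl⟩)

/-- **Every normal subgroup `N` of `Mod_S = Out(π_1(S))`, `S` a closed orientable surface of genus
`g ≥ 2`, is equal to `K_Γ` for some characteristic subgroup `Γ` of `π_1(S)`.** -/
theorem result (g : ℕ) (hg : 2 ≤ g) (N : Subgroup (Out (SurfaceGroup g))) (hN : N.Normal) :
    ∃ (Γ : Subgroup (SurfaceGroup g)) (_ : Γ.Characteristic), N = (outQuot Γ).ker := by
  obtain ⟨n, rfl⟩ : ∃ n, g = n + 2 := ⟨g - 2, by omega⟩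
  have hle : Inn (SurfaceGroup (n + 2)) ≤ N.comap (QuotientGroup.mk' (Inn (SurfaceGroup (n + 2)))) := by
    intro f hf
    have h1 : (QuotientGroup.mk' (Inn (SurfaceGroup (n + 2)))) f = 1 :=
      (QuotientGroup.eq_one_iff _).mpr hf
    rw [Subgroup.mem_comap, h1]
    exact N.one_mem
  obtain ⟨M, hM, h1, h2⟩ := Run7.h955.main_SG n
    (N.comap (QuotientGroup.mk' (Inn (SurfaceGroup (n + 2))))) (hN.comap _) hle
  exact eq_ker N M hM h1 h2

end Pool.Agent.Results.MP_e058c8_al.NormalSubgroupsAreKernels
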